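import Pool.Agent.R666.Sq.PieceP10

/-!
# Standard Young tableaux of a square with two corner cells removed

The number of standard Young tableaux of the `n × n` square without the two rightmost cells of its
top row is given by the conjectured product formula, for every `n ≥ 2`.
-/

set_option autoImplicit false
open Finset

namespace Pool.Agent.Results.MP_6a062b_co.CornerCells

/-- The cells `(i, j)`, `1 ≤ i, j ≤ n`, of the `n × n` square without `(1, n-1)` and `(1, n)`. -/
def D (n : ℕ) : Finset (ℕ × ℕ) := (Icc 1 n ×ˢ Icc 1 n) \ {(1, n - 1), (1, n)}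

/-- Standard Young tableaux of shape `D n`: the bijections `T` from the cells of `D n` to
`Fin (n ^ 2 - 2)` (the entries `1, …, n ^ 2 - 2` shifted by one) such that
`T (i, j) < T (i, j + 1)` and `T (i, j) < T (i + 1, j)` whenever both cells lie in `D n`. -/
def SYT (n : ℕ) : Type :=
  {T : {x // x ∈ D n} ≃ Fin (n ^ 2 - 2) //
    (∀ (i j : ℕ) (h : (i, j) ∈ D n) (h' : (i, j + 1) ∈ D n), T ⟨(i, j), h⟩ < T ⟨(i, j + 1), h'⟩) ∧
    (∀ (i j : ℕ) (h : (i, j) ∈ D n) (h' : (i + 1, j) ∈ D n), T ⟨(i, j), h⟩ < T ⟨(i + 1, j), h'⟩)}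

/-- `F m = 0! 1! ⋯ (m-1)!`. -/
def F (m : ℕ) : ℕ := ∏ i ∈ range m, i.factorial

/-- **The number of standard Young tableaux of the `n × n` square with two corner cells removed.**
-/
theorem result (n : ℕ) (hn : 2 ≤ n) :
    (Nat.card (SYT n) : ℚ) =
      6 * ((n ^ 2 - 2).factorial : ℚ) * ((3 * n - 4).factorial : ℚ) ^ 2 * (F (n - 2) : ℚ) ^ 2 /
        ((6 * n - 8).factorial * (2 * n - 2).factorial * ((n - 2).factorial : ℚ) ^ 2 *
          F (2 * n - 4)) :=
  Sq.final n hn

end Pool.Agent.Results.MP_6a062b_co.CornerCells
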